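import Pool.Agent.U3.PL.Quot

/-!
# Perfect images of paralindelöf spaces are paralindelöf

No hypothesis is assumed. Definitions: `LocallyCountable` and `Paralindelof` are in
`Pool.Agent.U3.PL.Basic`, `DiscreteFamily` and `CollectionwiseNormal` in
`Pool.Agent.U3.PL.Normal`.

The proof. A locally countable family of arbitrary sets in a paralindelöf space has a locally
countable open expansion. Let `f : X → Y` be closed with Lindelöf fibres, `𝒰` an open cover of `Y`
and `𝒱` a locally countable open refinement of the cover of `X` by the sets `f ⁻¹ U`. As the fibres
are Lindelöf and `f` is closed, the saturations `f ⁻¹ (f V)` of the members of `𝒱` form a locally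
countable family, and the same argument shows that for a locally countable open expansion `E V` of
it the open sets `{y | f ⁻¹ y ⊆ E V} ∩ U V`, where `V ⊆ f ⁻¹ (U V)`, form a locally countable open
refinement of `𝒰`.
-/

set_option autoImplicit false

open Set Topology

universe u v

namespace Pool.Agent.Results.MP_6bd103_gt.PerfectImages

open Pool.Agent.U3.PL

/-- (1) **Perfect images of paralindelöf spaces are paralindelöf** (the answer to Q1 is positive):
if `X` is paralindelöf and `f : X → Y` is continuous, surjective and closed with compact fibres,
then `Y` is paralindelöf. No separation axioms are needed.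
(2) It suffices that the fibres are Lindelöf, and if `X` is a `T1` space, that the boundaries of the
fibres are Lindelöf.
(3) On Q2: if a normal `T1` space `X`, paralindelöf or not, is not collectionwise normal, then there
is a continuous closed surjection of `X` onto a normal `T1` (hence regular) space `Y` which is not
paralindelöf. So a paralindelöf `T4` space all of whose `T4` closed images are paralindelöf is
collectionwise normal.
(4) In a paralindelöf `T4` space every closed discrete set can be separated by disjoint open sets. -/
theorem result :
    (∀ (X : Type u) [TopologicalSpace X] (Y : Type v) [TopologicalSpace Y] (f : X → Y),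
      Continuous f → Function.Surjective f → IsClosedMap f → (∀ y, IsCompact (f ⁻¹' {y})) →
      Paralindelof X → Paralindelof Y) ∧
    (∀ (X : Type u) [TopologicalSpace X] (Y : Type v) [TopologicalSpace Y] (f : X → Y),
      Continuous f → Function.Surjective f → IsClosedMap f → (∀ y, IsLindelof (f ⁻¹' {y})) →
      Paralindelof X → Paralindelof Y) ∧
    (∀ (X : Type u) [TopologicalSpace X] [T1Space X] (Y : Type v) [TopologicalSpace Y] (f : X → Y),
      Continuous f → Function.Surjective f → IsClosedMap f →
      (∀ y, IsLindelof (frontier (f ⁻¹' {y}))) → Paralindelof X → Paralindelof Y) ∧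
    (∀ (X : Type u) [TopologicalSpace X] [T4Space X], ¬ CollectionwiseNormal X →
      ∃ (Y : Type u) (_ : TopologicalSpace Y) (_ : T4Space Y) (f : X → Y), Continuous f ∧
        Function.Surjective f ∧ IsClosedMap f ∧ ¬ Paralindelof Y) ∧
    ∀ (X : Type u) [TopologicalSpace X] [T4Space X], Paralindelof X →
      ∀ D : Set X, (∀ s ⊆ D, IsClosed s) → ∃ U : D → Set X, (∀ d, IsOpen (U d)) ∧
        (∀ d, (d : X) ∈ U d) ∧ ∀ d e, d ≠ e → Disjoint (U d) (U e) := by
  refine ⟨?_, ?_, ?_, ?_, ?_⟩
  · intro X _ Y _ f hc hs hf hK hX
    exact closed_lindelof hX hc hs hf fun y => (hK y).isLindelof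
  · intro X _ Y _ f hc hs hf hK hX
    exact closed_lindelof hX hc hs hf hK
  · intro X _ _ Y _ f hc hs hf hK hX
    exact closed_frontier hX hc hs hf hK
  · intro X _ _ hX
    exact exists_closed_image hX
  · intro X _ _ hX D hD
    refine separate_points hX (d := fun d : D => (d : X)) Subtype.val_injective fun s => hD _ ?_
    rintro _ ⟨d, -, rfl⟩
    exact d.2

end Pool.Agent.Results.MP_6bd103_gt.PerfectImages
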